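import Pool.Agent.H90.SPW.Targets

/-!
# Part A (MP_81fcf0_co), row RB
-/

set_option autoImplicit false

open Finset
open scoped BigOperators Classical

namespace Pool.Agent.H86.SPW
open Pool.Agent.H90.SPW

variable {X E Y : Type} [Fintype X] [Fintype E]

theorem SM_nonneg (c : Ch X E Y) (Lam : ℝ) (k h' : ℕ) (x' : X) (t : ℕ) (e : E) (y : Y) :
    0 ≤ c.SM Lam k h' x' t e y := by
  unfold Ch.SM
  refine mul_nonneg (c.use_nonneg y e) (Finset.sum_nonneg fun d _ => mul_nonneg ?_ (c.P_nonneg _ _ _))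
  split
  · exact c.P_nonneg _ _ _
  · exact le_rfl

theorem inW_nonneg (c : Ch X E Y) (z : X) (y : Y) : 0 ≤ c.inW z y := by
  unfold Ch.inW
  refine Finset.sum_nonneg fun e _ => ?_
  split
  · exact c.use_nonneg y e
  · exact le_rfl

/-- grouping the edges by their targets -/
theorem group (c : Ch X E Y) (Lam : ℝ) (t : ℕ) (x : X) (y : Y) (B : X → ℝ) :
    ∑ e, (if c.Amp Lam t x (c.tgt e) y then 0 else c.P t x (c.src e) * c.use y e * B (c.tgt e)) =
      ∑ w, (if c.Amp Lam t x w y then 0 else c.inA t x w y * B w) := by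
  have h1 : ∀ e, (if c.Amp Lam t x (c.tgt e) y then 0 else
      c.P t x (c.src e) * c.use y e * B (c.tgt e)) =
      ∑ w, (if c.tgt e = w then (if c.Amp Lam t x w y then 0 else
        c.P t x (c.src e) * c.use y e * B w) else 0) := by
    intro e
    rw [Finset.sum_ite_eq, if_pos (Finset.mem_univ _)]
  rw [Finset.sum_congr rfl fun e _ => h1 e, Finset.sum_comm]
  refine Finset.sum_congr rfl fun w _ => ?_
  by_cases h : c.Amp Lam t x w y
  · rw [if_pos h]
    refine Finset.sum_eq_zero fun e _ => ?_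
    rw [if_pos h, ite_self]
  · rw [if_neg h]
    unfold Ch.inA
    rw [Finset.sum_mul]
    refine Finset.sum_congr rfl fun e _ => ?_
    rw [if_neg h]
    by_cases h2 : c.tgt e = w
    · rw [if_pos h2, if_pos h2]
    · rw [if_neg h2, if_neg h2, zero_mul]

theorem inner_le (c : Ch X E Y) (Lam : ℝ) (hL : 0 ≤ Lam) (t₁ t₂ : ℕ) (x z' : X) (y : Y) :
    ∑ e, (if c.Amp Lam t₁ x (c.tgt e) y then 0 else
      c.P t₁ x (c.src e) * c.use y e * c.P (t₂ - t₁ - 1) (c.tgt e) z') ≤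
      Lam * ∑ w, c.P (t₁ + 1) x w * c.inW w y * c.P (t₂ - 1 - t₁) w z' := by
  rw [group c Lam t₁ x y (fun w => c.P (t₂ - t₁ - 1) w z'), Finset.mul_sum]
  refine Finset.sum_le_sum fun w _ => ?_
  have e1 : t₂ - 1 - t₁ = t₂ - t₁ - 1 := by omega
  rw [e1]
  have hP1 := c.P_nonneg (t₁ + 1) x w
  have hP2 := c.P_nonneg (t₂ - t₁ - 1) w z'
  have hW := inW_nonneg c w y
  by_cases h : c.Amp Lam t₁ x w y
  · rw [if_pos h]
    positivity
  · rw [if_neg h]
    unfold Ch.Amp at h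
    push Not at h
    have h2 := mul_le_mul_of_nonneg_right h.le hP2
    calc c.inA t₁ x w y * c.P (t₂ - t₁ - 1) w z'
        ≤ Lam * c.inW w y * c.P (t₁ + 1) x w * c.P (t₂ - t₁ - 1) w z' := h2
      _ = Lam * (c.P (t₁ + 1) x w * c.inW w y * c.P (t₂ - t₁ - 1) w z') := by ring

theorem sum_t1 (c : Ch X E Y) (Lam : ℝ) (hL : 0 ≤ Lam) (n t₂ : ℕ) (ht : t₂ < n) (x z' : X)
    (y : Y) :
    ∑ t₁ ∈ range n, (if t₁ < t₂ then ∑ e, (if c.Amp Lam t₁ x (c.tgt e) y then 0 else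
      c.P t₁ x (c.src e) * c.use y e * c.P (t₂ - t₁ - 1) (c.tgt e) z') else 0) ≤
      Lam * c.BW t₂ x z' y := by
  rw [← Finset.sum_filter]
  have h1 : (range n).filter (fun t₁ => t₁ < t₂) = range t₂ := by
    ext t
    simp only [Finset.mem_filter, Finset.mem_range]
    omega
  rw [h1]
  unfold Ch.BW
  rw [Finset.mul_sum]
  exact Finset.sum_le_sum fun t₁ _ => inner_le c Lam hL t₁ t₂ x z' y

theorem pf_RB : T_RB := by
  intro X E Y _ _ _ c Lam hL k h' x x'
  unfold Ch.I1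
  rw [Finset.mul_sum]
  refine Finset.sum_le_sum fun y _ => ?_
  rw [Finset.sum_comm, Finset.mul_sum]
  refine Finset.sum_le_sum fun t₂ ht₂ => ?_
  rw [Finset.mem_range] at ht₂
  have h1 : ∀ t₁, (if t₁ < t₂ then ∑ e₁, ∑ e₂,
      (if c.Amp Lam t₁ x (c.tgt e₁) y then 0 else
        c.P t₁ x (c.src e₁) * c.use y e₁ * c.P (t₂ - t₁ - 1) (c.tgt e₁) (c.src e₂)) *
        c.SM Lam k h' x' t₂ e₂ y else 0) =
      ∑ e₂, (if t₁ < t₂ then ∑ e₁, (if c.Amp Lam t₁ x (c.tgt e₁) y then 0 else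
        c.P t₁ x (c.src e₁) * c.use y e₁ * c.P (t₂ - t₁ - 1) (c.tgt e₁) (c.src e₂)) else 0) *
        c.SM Lam k h' x' t₂ e₂ y := by
    intro t₁
    by_cases h : t₁ < t₂
    · simp only [if_pos h]
      rw [Finset.sum_comm]
      refine Finset.sum_congr rfl fun e₂ _ => ?_
      rw [Finset.sum_mul]
    · simp only [if_neg h, zero_mul, Finset.sum_const_zero]
  rw [Finset.sum_congr rfl fun t₁ _ => h1 t₁, Finset.sum_comm, Finset.mul_sum]
  refine Finset.sum_le_sum fun e₂ _ => ?_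
  rw [← Finset.sum_mul, ← mul_assoc]
  exact mul_le_mul_of_nonneg_right (sum_t1 c Lam hL (k * h') t₂ ht₂ x (c.src e₂) y)
    (SM_nonneg c Lam k h' x' t₂ e₂ y)

end Pool.Agent.H86.SPW
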