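import Pool.Agent.H90.SPW.Targets

/-!
# Part A (MP_81fcf0_co), row RT
-/

set_option autoImplicit false

open Finset
open scoped BigOperators Classical

namespace Pool.Agent.H86.SPW
open Pool.Agent.H90.SPW

/-! ### sums -/

theorem sum_range_mul' (k h : ℕ) (f : ℕ → ℝ) :
    ∑ t ∈ range (k * h), f t = ∑ i ∈ range k, ∑ r ∈ range h, f (i * h + r) := by
  induction k with
  | zero => simp
  | succ k ih =>
    rw [Nat.succ_mul, Finset.sum_range_add, ih, Finset.sum_range_succ]

theorem comm3 {A B C : Type} (sa : Finset A) (sb : Finset B) (sc : Finset C)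
    (W : A → B → C → ℝ) :
    ∑ a ∈ sa, ∑ b ∈ sb, ∑ y ∈ sc, W a b y = ∑ y ∈ sc, ∑ a ∈ sa, ∑ b ∈ sb, W a b y := by
  calc ∑ a ∈ sa, ∑ b ∈ sb, ∑ y ∈ sc, W a b y = ∑ a ∈ sa, ∑ y ∈ sc, ∑ b ∈ sb, W a b y :=
        Finset.sum_congr rfl fun a _ => Finset.sum_comm
    _ = _ := Finset.sum_comm

section

variable {X E Y : Type} [Fintype X] [Fintype E]

/-- the first factor -/
noncomputable def FF (c : Ch X E Y) (Lam : ℝ) (h' i : ℕ) (x : X) (r : ℕ) (e : E) (y : Y) : ℝ :=
  c.use y e * ∑ a, (if c.Amp Lam r a (c.tgt e) y then c.P r a (c.src e) else 0) * c.P (i * h') x a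

/-- the second factor -/
noncomputable def SS (c : Ch X E Y) (Lam : ℝ) (k h' j : ℕ) (x' : X) (s : ℕ) (e : E) (y : Y) : ℝ :=
  c.use y e * ∑ d, (if c.rev.Amp Lam (h' - 1 - s) d (c.src e) y then
    c.P (h' - 1 - s) (c.tgt e) d else 0) * c.P ((k - 1 - j) * h') d x'

theorem SM_eq (c : Ch X E Y) (Lam : ℝ) (k h' : ℕ) (x' : X) (j s : ℕ) (hs : s < h') (e : E)
    (y : Y) : c.SM Lam k h' x' (j * h' + s) e y = SS c Lam k h' j x' s e y := by
  have h1 : (j * h' + s) % h' = s := by
    rw [Nat.mul_add_mod', Nat.mod_eq_of_lt hs]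
  have h2 : (j * h' + s) / h' = j := by
    rw [add_comm, Nat.add_mul_div_right _ _ (by omega), Nat.div_eq_of_lt hs, zero_add]
  unfold Ch.SM SS
  rw [h1, h2]

theorem revSM_eq (c : Ch X E Y) (Lam : ℝ) (k h' : ℕ) (x : X) (i r : ℕ) (hi : i < k)
    (hr : r < h') (e : E) (y : Y) :
    c.rev.SM Lam k h' x (k * h' - 1 - (i * h' + r)) e y = FF c Lam h' i x r e y := by
  have h0 : k * h' - 1 - (i * h' + r) = (k - 1 - i) * h' + (h' - 1 - r) := by
    obtain ⟨m, rfl⟩ : ∃ m, k = i + 1 + m := ⟨k - (i + 1), by omega⟩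
    obtain ⟨n, rfl⟩ : ∃ n, h' = r + 1 + n := ⟨h' - (r + 1), by omega⟩
    have e1 : i + 1 + m - 1 - i = m := by omega
    have e2 : r + 1 + n - 1 - r = n := by omega
    rw [e1, e2]
    have e3 : (i + 1 + m) * (r + 1 + n) = i * (r + 1 + n) + (r + 1 + n) + m * (r + 1 + n) := by
      ring
    rw [e3]
    omega
  rw [h0, SM_eq c.rev Lam k h' x (k - 1 - i) (h' - 1 - r) (by omega) e y]
  unfold SS FF
  have e1 : h' - 1 - (h' - 1 - r) = r := by omega
  have e2 : k - 1 - (k - 1 - i) = i := by omega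
  rw [e1, e2]
  rw [c.rev_rev, c.rev_use]
  congr 1
  refine Finset.sum_congr rfl fun a _ => ?_
  rw [c.rev_P, c.rev_P]
  rfl

end

section

variable {X E Y : Type} [Fintype X] [Fintype E] [Fintype Y]

/-- the part `i = j` -/
theorem part_eq (c : Ch X E Y) (Lam : ℝ) (k h' i : ℕ) (x x' : X) :
    ∑ a, ∑ b, c.P (i * h') x a * c.DE Lam h' a b * c.P ((k - 1 - i) * h') b x' =
      ∑ y, ∑ r ∈ range h', ∑ s ∈ range h', if r < s then ∑ e₁, ∑ e₂,
        FF c Lam h' i x r e₁ y * c.P (s - r - 1) (c.tgt e₁) (c.src e₂) *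
          SS c Lam k h' i x' s e₂ y else 0 := by
  have h1 : ∀ a b, c.P (i * h') x a * c.DE Lam h' a b * c.P ((k - 1 - i) * h') b x' =
      ∑ y, ∑ r ∈ range h', ∑ s ∈ range h', if r < s then ∑ e₁, ∑ e₂,
        ((if c.Amp Lam r a (c.tgt e₁) y then c.P r a (c.src e₁) else 0) * c.P (i * h') x a *
          c.use y e₁ * c.P (s - r - 1) (c.tgt e₁) (c.src e₂) * (c.use y e₂ *
          ((if c.rev.Amp Lam (h' - 1 - s) b (c.src e₂) y then
            c.P (h' - 1 - s) (c.tgt e₂) b else 0) * c.P ((k - 1 - i) * h') b x'))) else 0 := by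
    intro a b
    unfold Ch.DE
    rw [Finset.mul_sum, Finset.sum_mul]
    refine Finset.sum_congr rfl fun y _ => ?_
    rw [Finset.mul_sum, Finset.sum_mul]
    refine Finset.sum_congr rfl fun r _ => ?_
    rw [Finset.mul_sum, Finset.sum_mul]
    refine Finset.sum_congr rfl fun s _ => ?_
    by_cases hrs : r < s
    · rw [if_pos hrs, if_pos hrs, Finset.mul_sum, Finset.sum_mul]
      refine Finset.sum_congr rfl fun e₁ _ => ?_
      rw [Finset.mul_sum, Finset.sum_mul]
      refine Finset.sum_congr rfl fun e₂ _ => ?_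
      by_cases hA : c.Amp Lam r a (c.tgt e₁) y
      · by_cases hB : c.rev.Amp Lam (h' - 1 - s) b (c.src e₂) y
        · rw [if_pos ⟨hA, hB⟩, if_pos hA, if_pos hB]
          ring
        · rw [if_neg (fun h => hB h.2), if_neg hB]
          ring
      · rw [if_neg (fun h => hA h.1), if_neg hA]
        ring
    · rw [if_neg hrs, if_neg hrs, mul_zero, zero_mul]
  simp only [h1]
  rw [comm3]
  refine Finset.sum_congr rfl fun y _ => ?_
  rw [comm3]
  refine Finset.sum_congr rfl fun r _ => ?_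
  rw [comm3]
  refine Finset.sum_congr rfl fun s _ => ?_
  by_cases hrs : r < s
  · simp only [if_pos hrs]
    rw [comm3]
    refine Finset.sum_congr rfl fun e₁ _ => ?_
    rw [comm3]
    refine Finset.sum_congr rfl fun e₂ _ => ?_
    unfold FF SS
    simp only [Finset.mul_sum, Finset.sum_mul]
    rw [Finset.sum_comm]
    refine Finset.sum_congr rfl fun a _ => Finset.sum_congr rfl fun b _ => ?_
    ring
  · simp only [if_neg hrs, Finset.sum_const_zero]

/-- the first half of the part `i < j` -/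
theorem half1 (c : Ch X E Y) (Lam : ℝ) (h' i : ℕ) (x b : X) (y : Y) :
    ∑ a, c.P (i * h') x a * c.OccA Lam h' a b y =
      ∑ r ∈ range h', ∑ e, FF c Lam h' i x r e y * c.P (h' - 1 - r) (c.tgt e) b := by
  unfold Ch.OccA FF
  simp only [Finset.mul_sum, Finset.sum_mul]
  rw [Finset.sum_comm]
  refine Finset.sum_congr rfl fun r _ => ?_
  rw [Finset.sum_comm]
  refine Finset.sum_congr rfl fun e _ => Finset.sum_congr rfl fun a _ => ?_
  by_cases hA : c.Amp Lam r a (c.tgt e) y
  · rw [if_pos hA, if_pos hA]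
    ring
  · rw [if_neg hA, if_neg hA]
    ring

/-- the second half of the part `i < j` -/
theorem half2 (c : Ch X E Y) (Lam : ℝ) (k h' j : ℕ) (u x' : X) (y : Y) :
    ∑ v, c.rev.OccA Lam h' v u y * c.P ((k - 1 - j) * h') v x' =
      ∑ s ∈ range h', ∑ e, c.P s u (c.src e) * SS c Lam k h' j x' s e y := by
  have h1 : ∀ v, c.rev.OccA Lam h' v u y = ∑ s ∈ range h', ∑ e,
      (if c.rev.Amp Lam (h' - 1 - s) v (c.src e) y then
        c.P (h' - 1 - s) (c.tgt e) v * c.use y e * c.P s u (c.src e) else 0) := by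
    intro v
    unfold Ch.OccA
    rw [← Finset.sum_range_reflect]
    refine Finset.sum_congr rfl fun s hs => ?_
    rw [Finset.mem_range] at hs
    have e1 : h' - 1 - (h' - 1 - s) = s := by omega
    refine Finset.sum_congr rfl fun e _ => ?_
    rw [e1, c.rev_P, c.rev_P]
    rfl
  simp only [h1]
  unfold SS
  simp only [Finset.mul_sum, Finset.sum_mul]
  rw [Finset.sum_comm]
  refine Finset.sum_congr rfl fun s _ => ?_
  rw [Finset.sum_comm]
  refine Finset.sum_congr rfl fun e _ => Finset.sum_congr rfl fun v _ => ?_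
  by_cases hA : c.rev.Amp Lam (h' - 1 - s) v (c.src e) y
  · rw [if_pos hA, if_pos hA]
    ring
  · rw [if_neg hA, if_neg hA]
    ring

/-- the part `i < j` -/
theorem part_lt (c : Ch X E Y) (Lam : ℝ) (k h' i j : ℕ) (hij : i < j) (x x' : X) :
    ∑ y, ∑ a, ∑ b, ∑ u, ∑ v,
      c.P (i * h') x a * c.OccA Lam h' a b y * c.P ((j - i - 1) * h') b u *
        c.rev.OccA Lam h' v u y * c.P ((k - 1 - j) * h') v x' =
      ∑ y, ∑ r ∈ range h', ∑ s ∈ range h', ∑ e₁, ∑ e₂,
        FF c Lam h' i x r e₁ y * c.P (j * h' + s - (i * h' + r) - 1) (c.tgt e₁) (c.src e₂) *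
          SS c Lam k h' j x' s e₂ y := by
  refine Finset.sum_congr rfl fun y _ => ?_
  have h1 : ∑ a, ∑ b, ∑ u, ∑ v,
      c.P (i * h') x a * c.OccA Lam h' a b y * c.P ((j - i - 1) * h') b u *
        c.rev.OccA Lam h' v u y * c.P ((k - 1 - j) * h') v x' =
      ∑ b, ∑ u, (∑ a, c.P (i * h') x a * c.OccA Lam h' a b y) * c.P ((j - i - 1) * h') b u *
        (∑ v, c.rev.OccA Lam h' v u y * c.P ((k - 1 - j) * h') v x') := by
    rw [Finset.sum_comm]
    refine Finset.sum_congr rfl fun b _ => ?_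
    rw [Finset.sum_comm]
    refine Finset.sum_congr rfl fun u _ => ?_
    rw [Finset.sum_mul, Finset.sum_mul]
    refine Finset.sum_congr rfl fun a _ => ?_
    rw [Finset.mul_sum]
    refine Finset.sum_congr rfl fun v _ => ?_
    ring
  rw [h1]
  simp only [half1, half2]
  -- expand the middle factor on the right
  have h2 : ∀ r ∈ range h', ∀ s ∈ range h', ∀ e₁ e₂ : E,
      FF c Lam h' i x r e₁ y * c.P (j * h' + s - (i * h' + r) - 1) (c.tgt e₁) (c.src e₂) *
          SS c Lam k h' j x' s e₂ y =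
      ∑ b, ∑ u, (FF c Lam h' i x r e₁ y * c.P (h' - 1 - r) (c.tgt e₁) b) *
        c.P ((j - i - 1) * h') b u * (c.P s u (c.src e₂) * SS c Lam k h' j x' s e₂ y) := by
    intro r hr s hs e₁ e₂
    rw [Finset.mem_range] at hr hs
    have h3 : j * h' + s - (i * h' + r) - 1 = (h' - 1 - r) + ((j - i - 1) * h' + s) := by
      obtain ⟨m, rfl⟩ : ∃ m, j = i + 1 + m := ⟨j - (i + 1), by omega⟩
      obtain ⟨n, rfl⟩ : ∃ n, h' = r + 1 + n := ⟨h' - (r + 1), by omega⟩
      have e1 : i + 1 + m - i - 1 = m := by omega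
      have e2 : r + 1 + n - 1 - r = n := by omega
      rw [e1, e2]
      have e3 : (i + 1 + m) * (r + 1 + n) = i * (r + 1 + n) + (r + 1 + n) + m * (r + 1 + n) := by
        ring
      rw [e3]
      omega
    rw [h3, c.P_add, Finset.mul_sum, Finset.sum_mul]
    refine Finset.sum_congr rfl fun b _ => ?_
    rw [c.P_add, Finset.mul_sum, Finset.mul_sum, Finset.sum_mul]
    refine Finset.sum_congr rfl fun u _ => ?_
    ring
  symm
  calc ∑ r ∈ range h', ∑ s ∈ range h', ∑ e₁, ∑ e₂,
        FF c Lam h' i x r e₁ y * c.P (j * h' + s - (i * h' + r) - 1) (c.tgt e₁) (c.src e₂) *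
          SS c Lam k h' j x' s e₂ y
      = ∑ r ∈ range h', ∑ s ∈ range h', ∑ e₁, ∑ e₂, ∑ b, ∑ u,
          (FF c Lam h' i x r e₁ y * c.P (h' - 1 - r) (c.tgt e₁) b) *
          c.P ((j - i - 1) * h') b u * (c.P s u (c.src e₂) * SS c Lam k h' j x' s e₂ y) :=
        Finset.sum_congr rfl fun r hr => Finset.sum_congr rfl fun s hs =>
          Finset.sum_congr rfl fun e₁ _ => Finset.sum_congr rfl fun e₂ _ => h2 r hr s hs e₁ e₂
    _ = ∑ r ∈ range h', ∑ s ∈ range h', ∑ b, ∑ e₁, ∑ e₂, ∑ u,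
          (FF c Lam h' i x r e₁ y * c.P (h' - 1 - r) (c.tgt e₁) b) *
          c.P ((j - i - 1) * h') b u * (c.P s u (c.src e₂) * SS c Lam k h' j x' s e₂ y) := by
        refine Finset.sum_congr rfl fun r _ => Finset.sum_congr rfl fun s _ => ?_
        exact comm3 _ _ _ _
    _ = ∑ b, ∑ r ∈ range h', ∑ s ∈ range h', ∑ e₁, ∑ e₂, ∑ u,
          (FF c Lam h' i x r e₁ y * c.P (h' - 1 - r) (c.tgt e₁) b) *
          c.P ((j - i - 1) * h') b u * (c.P s u (c.src e₂) * SS c Lam k h' j x' s e₂ y) :=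
        comm3 _ _ _ _
    _ = ∑ b, ∑ u, ∑ r ∈ range h', ∑ s ∈ range h', ∑ e₁, ∑ e₂,
          (FF c Lam h' i x r e₁ y * c.P (h' - 1 - r) (c.tgt e₁) b) *
          c.P ((j - i - 1) * h') b u * (c.P s u (c.src e₂) * SS c Lam k h' j x' s e₂ y) := by
        refine Finset.sum_congr rfl fun b _ => ?_
        refine Eq.trans ?_ (comm3 (range h') (range h') univ _)
        refine Finset.sum_congr rfl fun r _ => Finset.sum_congr rfl fun s _ => ?_
        exact comm3 _ _ _ _
    _ = _ := by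
        refine Finset.sum_congr rfl fun b _ => Finset.sum_congr rfl fun u _ => ?_
        rw [Finset.sum_mul, Finset.sum_mul]
        refine Finset.sum_congr rfl fun r _ => ?_
        rw [Finset.mul_sum]
        refine Finset.sum_congr rfl fun s _ => ?_
        rw [Finset.sum_mul, Finset.sum_mul]
        refine Finset.sum_congr rfl fun e₁ _ => ?_
        rw [Finset.mul_sum]

end

theorem pf_RT : T_RT := by
  intro X E Y _ _ _ c Lam k h' hh x x'
  apply le_of_eq
  have h1 : ∑ i ∈ range k, ∑ j ∈ range k, ∑ y, ∑ r ∈ range h',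
      ∑ s ∈ range h', (if i * h' + r < j * h' + s then ∑ e₁, ∑ e₂,
        FF c Lam h' i x r e₁ y * c.P (j * h' + s - (i * h' + r) - 1) (c.tgt e₁) (c.src e₂) *
          SS c Lam k h' j x' s e₂ y else 0) = c.TQ Lam k h' x x' := by
    unfold Ch.TQ
    rw [comm3]
    refine Finset.sum_congr rfl fun y _ => ?_
    rw [sum_range_mul' k h']
    refine Finset.sum_congr rfl fun i hi => ?_
    rw [Finset.sum_comm]
    refine Finset.sum_congr rfl fun r hr => ?_
    rw [sum_range_mul' k h']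
    refine Finset.sum_congr rfl fun j _ => Finset.sum_congr rfl fun s hs => ?_
    rw [Finset.mem_range] at hi hr hs
    simp only [revSM_eq c Lam k h' x i r hi hr, SM_eq c Lam k h' x' j s hs]
  rw [← h1]
  unfold Ch.TP
  have h2 : ∀ i ∈ range k, ∑ a, ∑ b, c.P (i * h') x a * c.DE Lam h' a b *
      c.P ((k - 1 - i) * h') b x' = ∑ j ∈ range k, (if i = j then
        ∑ a, ∑ b, c.P (i * h') x a * c.DE Lam h' a b * c.P ((k - 1 - i) * h') b x' else 0) := by
    intro i hi
    rw [Finset.sum_ite_eq, if_pos hi]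
  rw [Finset.sum_congr rfl h2, ← Finset.sum_add_distrib]
  refine Finset.sum_congr rfl fun i _ => ?_
  rw [← Finset.sum_add_distrib]
  refine Finset.sum_congr rfl fun j _ => ?_
  rcases lt_trichotomy i j with hij | hij | hij
  · rw [if_neg hij.ne, if_pos hij, zero_add, part_lt c Lam k h' i j hij x x']
    refine Finset.sum_congr rfl fun y _ => Finset.sum_congr rfl fun r hr =>
      Finset.sum_congr rfl fun s _ => ?_
    rw [Finset.mem_range] at hr
    rw [if_pos]
    have h3 : (i + 1) * h' ≤ j * h' := Nat.mul_le_mul_right _ hij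
    rw [Nat.succ_mul] at h3
    omega
  · subst hij
    rw [if_pos rfl, if_neg (lt_irrefl _), add_zero, part_eq c Lam k h' i x x']
    refine Finset.sum_congr rfl fun y _ => Finset.sum_congr rfl fun r _ =>
      Finset.sum_congr rfl fun s _ => ?_
    have h3 : i * h' + s - (i * h' + r) - 1 = s - r - 1 := by omega
    by_cases hrs : r < s
    · rw [if_pos hrs, if_pos (by omega), h3]
    · rw [if_neg hrs, if_neg (by omega)]
  · rw [if_neg hij.ne', if_neg (not_lt.2 hij.le), add_zero]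
    symm
    refine Finset.sum_eq_zero fun y _ => Finset.sum_eq_zero fun r _ =>
      Finset.sum_eq_zero fun s hs => ?_
    rw [Finset.mem_range] at hs
    rw [if_neg]
    have h3 : (j + 1) * h' ≤ i * h' := Nat.mul_le_mul_right _ hij
    rw [Nat.succ_mul] at h3
    omega

end Pool.Agent.H86.SPW
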